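import Pool.Agent.TH163.AC4.Final

/-!
# Online matrix-vector multiplication over `ZMod 2` with memory of bounded depth

An algorithm may rewrite its whole memory between two vectors, free of charge and with full
knowledge of the matrix and of the earlier vectors; only probes count. The programs know the earlier
vectors and the earlier answers without probing. For given coins and earlier vectors, every bit of
the memory is computed by a circuit of size at most `2 ^ k` and depth at most `d` (unbounded fan-in
AND and OR, NOT) from the `n * n` bits of the matrix, either its entries or its bits in other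
coordinates: `n` linearly independent linear forms of every row of `G * M`. The circuits may depend
on `e` arbitrary bits of side information about the matrix (for instance parities of entries, or
bits of earlier answers). There are at most `2 ^ k` bits of memory. Then
`γ * n ^ 3 / (10 * L ^ (2 * d + 2))` bits must be probed, where
`L = 24 * e + 72 * k + 24 * d + 72`, if each answer is right with probability `γ`, which may be as
small as `1 / 2 ^ k`. For circuits of polynomial size and constant depth and polylogarithmic `e`
this is `n ^ 3` up to a polylogarithmic factor.

The definitions are in `Pool/Agent/TH163/AC2/Model.lean` (`Alg`, `coord`, `probes`, `Solves`,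
`Right`), `Pool/Agent/TH163/AC4/Model.lean` (`DepthSize`), `Pool/Agent/H699R2/OMV/Model.lean`
(`Prog`, `before`, `IsProb`, `avg`) and `Pool/Agent/H568R2/Defs.lean` (`Circuit`).

Proof. By the switching lemma (`Pool/Agent/TH163/AC3/Sw.lean`) all bits of the memory get decision
trees of depth `O(e + k + d)` when all but `n / L ^ d` entries of each row are fixed at random. If
few of the remaining entries of a row are read, then some of the others can be flipped without
changing the memory cells probed and the earlier answers, but the right answer changes in
this row. So if this is so for `m` rows then the answer is right in at most one of `2 ^ m`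
cases, for each value of the side information.
-/

set_option autoImplicit false

namespace Pool.Agent.Results.MP_0f1f76_lc.ConstantDepthMemory

open Pool.Agent.TH163.AC2 (Alg)
open Pool.Agent.TH163.AC4 (DepthSize)
open Pool.Agent.H699R2.OMV (Vec Mat IsProb avg)

/-- Let `n ≤ 2 ^ k` and `L ^ (d + 1) ≤ n`, where `L = 24 * e + 72 * k + 24 * d + 72`. If the memory
consists of at most `2 ^ k` bits which are computed by circuits of size at most `2 ^ k` and depth at
most `d` (for given coins and earlier vectors and `e` arbitrary bits of side information about the
matrix, in coordinates which may depend on the coins and the earlier vectors), and each answer is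
right with probability at least `γ ≥ 1 / 2 ^ k`, then the number of bits in the cells probed on
a random input is at least `γ * n ^ 3 / (10 * L ^ (2 * d + 2))` on average. -/
theorem result (n d k e : ℕ) (hn : n ≤ 2 ^ k)
    (hL : (24 * e + 72 * k + 24 * d + 72) ^ (d + 1) ≤ n)
    (Ω A : Type) [Fintype Ω] [Fintype A] (w : ℕ) (alg : Alg n Ω A w) (μ : Ω → ℝ) (hμ : IsProb μ)
    (γ : ℝ) (hγ : 1 / (2 : ℝ) ^ k ≤ γ) (hA : Fintype.card A * w ≤ 2 ^ k)
    (hDS : DepthSize alg d (2 ^ k) e) (hs : alg.Solves μ γ ∨ alg.Right μ γ) :
    γ * (n : ℝ) ^ 3 / (10 * (24 * e + 72 * k + 24 * d + 72 : ℝ) ^ (2 * d + 2)) ≤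
      w * avg (fun M vs => ∑ ω, μ ω * ∑ q, ((alg.probes ω M vs q).length : ℝ)) := by
  have hR : alg.Right μ γ := by
    rcases hs with hs | hs
    · intro q
      unfold Pool.Agent.H699R2.OMV.avg
      have hc : (0 : ℝ) < (Fintype.card (Mat n) : ℝ) * (Fintype.card (Fin n → Vec n) : ℝ) := by
        have h1 : (0 : ℝ) < (Fintype.card (Mat n) : ℝ) := by exact_mod_cast Fintype.card_pos
        have h2 : (0 : ℝ) < (Fintype.card (Fin n → Vec n) : ℝ) := by
          exact_mod_cast Fintype.card_pos
        positivity
      rw [le_div_iff₀ hc]
      calc γ * ((Fintype.card (Mat n) : ℝ) * (Fintype.card (Fin n → Vec n) : ℝ)) =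
            ∑ _M : Mat n, ∑ _vs : Fin n → Vec n, γ := by
            simp only [Finset.sum_const, Finset.card_univ, nsmul_eq_mul]
            ring
        _ ≤ _ := Finset.sum_le_sum (fun M _ => Finset.sum_le_sum (fun vs _ => hs M vs q))
    · exact hs
  have h := Pool.Agent.TH163.AC4.final e d k hn hL alg μ hμ hA hDS hγ hR
  rw [div_le_iff₀ (by positivity)]
  linarith

end Pool.Agent.Results.MP_0f1f76_lc.ConstantDepthMemory
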