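import Pool.Agent.TH810.CW.Omv

/-!
# Online matrix-vector products: circuits with arbitrary gates and free preprocessing

The input is a pair of `n × n` matrices over a semiring `R`, for instance `R = ZMod 2`: the matrix
`M` and the matrix `V` whose columns are the vectors `v_1, …, v_n`; the outputs are the entries of
`M V`, that is, of the products `M v_q`. The gates of a circuit (`Circuit`) compute arbitrary
functions of the multiset of the labels and values on their wires, with unbounded fan-in and values
in an arbitrary set. Every gate all of whose inputs (the entry it reads and the values on its wires)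
are functions of `M` alone, or all of whose inputs are functions of `V` alone, is free; `online C`
is the set of the other gates. So any preprocessing of the matrix, and any processing of all the
vectors together that does not look at the matrix, is free, whatever its size.

The wiring of a gate consists of the entry that it reads and of the labels and functions on its
wires (as functions of `M` and `V`). `numWiringsOn encM C (online C) (pull '' A)` is the number of
different transforms of the wirings of the online gates under the relabelings in `A`, that is,
permutations of the rows of `M`, of the columns of `M` (and entries of the vectors), and of the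
vectors. No symmetry of the circuits is assumed.

1. Let `n = 2 r + z`, the index set consisting of `r` pairs and `z` further elements. There is an
   elementary abelian group `Γ` of at most `2 r` permutations (swaps of pairs) such that every
   probabilistic circuit for the `n` products with error probability at most `ε`, on matrices and
   vectors with the entries `0` and `1`, has an expected number of wirings of online gates up to
   `Γ × Γ × Γ` of at least `(1 - 2 ε) r ^ 3`. With error `1 / 3` and `n = 2 r` this is `n ^ 3 / 24`.
2. The school method has at most `n ^ 3 + 3 n ^ 2` wirings (of all its gates) up to all relabelings.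

The counting of triples and the shift argument are those of the starting library `H429R4/TR`
(`random_bound` there, which no result file states, is the case without free gates).
-/

set_option autoImplicit false

namespace Pool.Agent.Results.MP_0f1f76_lc.OnlineWirings

open Finset
open Pool.Agent.H429R4.FW Pool.Agent.H429R4.TR Pool.Agent.TH810.CW
open Pool.Agent.H429R4.MM (Va sand relabelings)

open Classical in
theorem result :
    -- probabilistic circuits with free preprocessing
    (∀ r : ℕ, 1 ≤ r → ∃ Γ : AddSubgroup (Fin r → ZMod 2), Nat.card Γ ≤ 2 * r ∧
      ∀ (R Z Ω : Type) [Semiring R] [Nontrivial R] [Fintype Z] [Fintype Ω] (p : Ω → ℝ),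
        (∀ ω, 0 ≤ p ω) → ∑ ω, p ω = 1 →
        ∀ (D L : Type) (dec : D → R) (C : Ω → Circuit R (Va (Jx r Z)) D L)
          (out : ∀ ω, Jx r Z → Jx r Z → (C ω).Gate) (ε : ℝ),
          (∀ x : Mats (Jx r Z) R, (∀ v, x v = 0 ∨ x v = 1) →
            ∑ ω with ¬ Right (C ω) (out ω) dec x, p ω ≤ ε) →
          ∀ A : Set (Va (Jx r Z) → Va (Jx r Z)),
            (∀ x ∈ Γ, ∀ y ∈ Γ, ∀ z ∈ Γ, sand (swp x) (swp y) (swp z) ∈ A) →
            (1 - 2 * ε) * (r : ℝ) ^ 3 ≤
              ∑ ω, p ω * (numWiringsOn encM (C ω) (online (C ω)) (pull '' A) : ℝ)) ∧
    -- the school method
    (∀ (R M : Type) [Semiring R] [Fintype M] [Nonempty M],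
      ∃ (C : Circuit R (Va M) R Bool) (out : M → M → C.Gate),
        (∀ x : Mats M R, Right C out id x) ∧
        numWirings encM C (pull '' relabelings M) ≤
          Fintype.card M ^ 3 + 3 * Fintype.card M ^ 2) := by
  refine ⟨omv_bound, fun R M _ _ hM => ?_⟩
  obtain ⟨m⟩ := hM
  exact ⟨schoolC M R (.inr (.inr (m, m))), fun p q => .inr (.inr (p, q)),
    fun x p q => value_sum _ p q x, school_wirings _⟩

end Pool.Agent.Results.MP_0f1f76_lc.OnlineWirings
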