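import Pool.Agent.TH457.Omv

set_option autoImplicit false

/-! # Matrix-vector products over the field with two elements, for randomised formulas

Given a matrix `M` over the field with two elements and pairs `(u_i, v_i)` of vectors, one bit
`g (u_1ᵀ M v_1, ..., u_mᵀ M v_m)` is to be computed, where `g` is a function which depends on all
its arguments, for example their sum or their maximum. A leaf of a formula is an arbitrary predicate
of the whole matrix (so preprocessing is free of charge) or an arbitrary predicate of a whole pair
of vectors, and a gate is an arbitrary function of two bits. -/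

namespace Pool.Agent.Results.MP_0f1f76_lc.RandomizedFormulas

open Pool.Agent.TH697.Form Pool.Agent.TH457.Omv

theorem result :
    (∀ n m : ℕ, 6 ≤ n → ∀ g : (Fin m → ZMod 2) → Bool, DependsOnAll g →
      ∀ (Ω : Type) [Fintype Ω] (μ : Ω → ℝ), IsProb μ →
      ∀ F : Ω → Fml (Option (Fin m)) (Item n m),
        Computes μ F (fun _ => True) (question n m g) →
          (m : ℝ) * n ^ 2 ≤ 100 * expSize μ F) ∧
    (∀ n m : ℕ, 1 ≤ n → ∀ G : Fml (Fin m) (fun _ => ZMod 2),
      ∃ F : Fml (Option (Fin m)) (Item n m),
        (∀ x, F.eval x = question n m G.eval x) ∧ F.size = 3 * n ^ 2 * G.size) :=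
  ⟨fun _ _ hn g hg _ _ μ hμ F hF => lower hn g hg μ hμ F hF, fun _ _ hn G => upper hn G⟩

end Pool.Agent.Results.MP_0f1f76_lc.RandomizedFormulas
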