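import Pool.Agent.H699R2.OMV.Rows

/-!
# Online matrix-vector multiplication over `ZMod 2`: time times row-sensitivity

For every randomised algorithm, the number of probes weighted by the number of rows (of `G * M`, for
invertible matrices `G` which may be chosen anew for every vector) to which the probed cells are
sensitive is at least `n ^ 2 * (n - 6) / (6 * log (|A| * |W| + 2))` on average. The theorem is
`row_bound` of the starting library `Pool/Agent/H699R2/OMV`, which no result file stated before; the
definitions are in `Pool/Agent/H699R2/OMV/Model.lean`.
-/

set_option autoImplicit false

namespace Pool.Agent.Results.MP_0f1f76_lc.RowSensitivity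

open Pool.Agent.H699R2.OMV

/-- An algorithm may rewrite its whole memory (addresses in `A`, contents in `W`) between two
vectors, free of charge; only probes count. On a random matrix and a random stream of `n` vectors
the expected total, over all probes, of the number of rows of `G * M` to which the content of the
probed cell is sensitive is at least `n ^ 2 * (n - 6) / (6 * log₂ (|A| * |W| + 2))`. Here `G` is any
invertible matrix, depending on the coins and on the earlier vectors. It is enough that every single
answer is wrong with probability at most `1 / 3` on a random input. -/
theorem result {n : ℕ} {Ω A W : Type} [Fintype Ω] [Fintype A] [Fintype W]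
    (alg : Alg n Ω A W) (μ : Ω → ℝ) (hμ : IsProb μ)
    (hs : alg.Solves μ ∨ alg.SolvesOnAverage μ) (G : Ω → List (Vec n) → (Mat n)ˣ) :
    (n : ℝ) ^ 2 * (n - 6) / (6 * Real.logb 2 (Fintype.card A * Fintype.card W + 2)) ≤
      avg (alg.rowWork μ G) := by
  have hs' : alg.SolvesOnAverage μ := hs.elim (solvesOnAverage_of_solves alg μ hμ) id
  exact row_bound alg μ hμ hs' G (fun ω M h a => alg.rowSens (G ω h) ω M h a) (by
    intro ω M h a r x hr
    unfold Alg.rowSens at hr
    simp only [Finset.mem_filter, Finset.mem_univ, true_and, not_exists, ne_eq, not_not] at hr
    exact hr x)

end Pool.Agent.Results.MP_0f1f76_lc.RowSensitivity
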